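import Mathlib
import Pool.Agent.Lib.helper15.Vol2

namespace Pool.Agent.Results.MP_1bac39_an.Pathology
open Set Filter Topology Matrix

/-- `y = (u, u', u'', u''')` is the jet on `[0, b]` of a solution of
`u'''' + p₂ u'' + p₁ u' + p₀ u = l u` -/
def Jet (b : ℝ) (p : Fin 3 → ℝ → ℂ) (l : ℂ) (y : ℝ → Fin 4 → ℂ) : Prop :=
  ∀ x ∈ Icc 0 b, HasDerivWithinAt y
    ![y x 1, y x 2, y x 3, l * y x 0 - (p 2 x * y x 2 + p 1 x * y x 1 + p 0 x * y x 0)] (Icc 0 b) x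

/-- `N l` is the Floquet matrix: its `j`-th column is the jet at `b` of the `j`-th fundamental
solution -/
def IsFloquet (b : ℝ) (p : Fin 3 → ℝ → ℂ) (N : ℂ → Matrix (Fin 4) (Fin 4) ℂ) : Prop :=
  ∀ l j, ∃ y, Jet b p l y ∧ y 0 = Pi.single j 1 ∧ ∀ k, N l k j = y b k

/-- `ε ↦ (l₀ + ε², r ε)` is a ramification point of degree two of the eigenvalue surface of `N`,
and the span of the two eigenvectors `v ε`, `v (-ε)` converges to a plane of eigenvectors of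
`N l₀` for the eigenvalue `r 0` -/
def FirstKind (N : ℂ → Matrix (Fin 4) (Fin 4) ℂ) (l₀ : ℂ) (r : ℂ → ℂ) : Prop :=
  AnalyticAt ℂ r 0 ∧ ∃ (v a c : ℂ → Fin 4 → ℂ) (w₁ w₂ : Fin 4 → ℂ),
    (∀ᶠ ε in 𝓝[≠] 0, r ε ≠ r (-ε) ∧ v ε ≠ 0 ∧ N (l₀ + ε ^ 2) *ᵥ v ε = r ε • v ε ∧
      Submodule.span ℂ {a ε, c ε} = Submodule.span ℂ {v ε, v (-ε)}) ∧
    Tendsto a (𝓝[≠] 0) (𝓝 w₁) ∧ Tendsto c (𝓝[≠] 0) (𝓝 w₂) ∧ LinearIndependent ℂ ![w₁, w₂] ∧
    N l₀ *ᵥ w₁ = r 0 • w₁ ∧ N l₀ *ᵥ w₂ = r 0 • w₂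

open Pool.Agent.Lib.helper15.Vol BoundedContinuousFunction Complex ContinuousLinearMap

noncomputable def F1 (a : ℂ) : ℝ →ᵇ ℂ := (2 * a) • Sn + (2 * a ^ 2) • (Sn * Cs)
noncomputable def F2 (a : ℂ) : ℝ →ᵇ ℂ := (2 * a) • Cs + (2 * a ^ 2) • (Cs * Cs - Sn * Sn)
noncomputable def P (a μ : ℂ) : Fin 3 → ℝ →ᵇ ℂ :=
  ![ff a μ * ff a μ - F2 a, (-2 : ℂ) • F1 a, (-2 : ℂ) • ff a μ]
noncomputable def B (k : Fin 4) : (Fin 4 → ℂ) →L[ℂ] (Fin 4 → ℂ) := pi ![0, 0, 0, proj k]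
noncomputable def N4 : (Fin 4 → ℂ) →L[ℂ] (Fin 4 → ℂ) := pi ![proj 1, proj 2, proj 3, 0]
noncomputable def A4 (a μ l : ℂ) : ℝ →ᵇ ((Fin 4 → ℂ) →L[ℂ] (Fin 4 → ℂ)) :=
  BoundedContinuousFunction.const ℝ N4 -
    (sm (B 2) (P a μ 2) + sm (B 1) (P a μ 1) + sm (B 0) (P a μ 0)) + sm (B 0) (l • 1)

lemma F1_ap (a : ℂ) (x : ℝ) : F1 a x = 2 * a * sin x + 2 * a ^ 2 * (sin x * cos x) := by
  simp [F1, Cs, Sn]
lemma F2_ap (a : ℂ) (x : ℝ) : F2 a x = 2 * a * cos x + 2 * a ^ 2 * (cos x * cos x - sin x * sin x) := by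
  simp [F2, Cs, Sn]

lemma A4_ap (a μ l : ℂ) (x : ℝ) (y : Fin 4 → ℂ) : A4 a μ l x y =
    ![y 1, y 2, y 3, l * y 0 - (P a μ 2 x * y 2 + P a μ 1 x * y 1 + P a μ 0 x * y 0)] := by
  ext k
  fin_cases k <;> simp [A4, sm_ap, B, N4]
  ring

lemma jet_iff (a μ l : ℂ) (y : ℝ → Fin 4 → ℂ) : Jet (2 * Real.pi) (fun k => P a μ k) l y ↔
    Sol (2 * Real.pi) (fun x => A4 a μ l x) y := by
  simp only [Jet, Sol, A4_ap]

noncomputable def T4 (a μ l : ℂ) := T (2 * Real.pi) (A4 a μ l)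

lemma Tc {E : Type} [NormedAddCommGroup E] [NormedSpace ℂ E] [CompleteSpace E] (b : ℝ)
    (A : ℝ →ᵇ (E →L[ℂ] E)) (C : E →L[ℂ] E) : Continuous fun l : ℂ => T b (A + sm C (l • 1)) := by
  refine continuous_iff_continuousAt.2 fun l => AnalyticAt.continuousAt (𝕜 := ℂ) ?_
  have h1 : AnalyticAt ℂ (fun l : ℂ => l • (1 : ℝ →ᵇ ℂ)) l := analyticAt_id.smul analyticAt_const
  have h2 : AnalyticAt ℂ (fun f : ℝ →ᵇ ℂ => T b (A + sm C f)) (l • 1) :=
    (T_an _).comp (analyticAt_const.add (ContinuousLinearMap.analyticAt (𝕜 := ℂ) (E := ℝ →ᵇ ℂ)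
      (F := ℝ →ᵇ (E →L[ℂ] E)) (sm C) _))
  exact h2.comp (f := fun l : ℂ => l • (1 : ℝ →ᵇ ℂ)) h1

lemma T4c (a μ : ℂ) : Continuous (T4 a μ) := Tc _ _ _

lemma lift (a μ ε ρ : ℂ) (e : ℂ × ℂ) (h : Th (ff a (μ + ε)) e = ρ • e) :
    T4 a μ (ε ^ 2) ![e.1, e.2, (μ - 2 * a + ε) * e.1, (μ - 2 * a + ε) * e.2] =
      ρ • ![e.1, e.2, (μ - 2 * a + ε) * e.1, (μ - 2 * a + ε) * e.2] := by
  set y := sol (2 * Real.pi) (A2 (ff a (μ + ε))) e with hy
  have d0 : ∀ x : ℝ, HasDerivAt (ff a (μ + ε)) (F1 a x) x := fun x => by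
    rw [funext (ff_ap a _), F1_ap]
    exact ((((hasDerivAt_cos (x : ℂ)).const_mul (2 * a)).const_sub (μ + ε)).fun_add
      (((hasDerivAt_sin _).fun_mul (hasDerivAt_sin _)).const_mul _)).comp_ofReal.congr_deriv (by ring)
  have d1 : ∀ x : ℝ, HasDerivAt (F1 a) (F2 a x) x := fun x => by
    rw [funext (F1_ap a), F2_ap]
    exact (((hasDerivAt_sin (x : ℂ)).const_mul (2 * a)).fun_add
      (((hasDerivAt_sin _).fun_mul (hasDerivAt_cos _)).const_mul _)).comp_ofReal.congr_deriv (by ring)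
  have := uniq b0 (A4 a μ (ε ^ 2)) (y := fun x => ![(y x).1, (y x).2, ff a (μ + ε) x * (y x).1,
      ff a (μ + ε) x * (y x).2 + F1 a x * (y x).1]) fun x hx => by
    obtain ⟨h1, h2⟩ := solH (ff a (μ + ε)) e hx
    simp only [A4_ap]
    rw [hasDerivWithinAt_pi]
    intro k
    fin_cases k
    · exact h1
    · exact h2
    · exact ((d0 x).hasDerivWithinAt.fun_mul h1).congr_deriv (by simp; ring)
    · refine (((d0 x).hasDerivWithinAt.fun_mul h2).fun_add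
        ((d1 x).hasDerivWithinAt.fun_mul h1)).congr_deriv ?_
      simp [P, ff_ap]
      ring
  have e0 : y 0 = e := sol0 b0 _ _
  have e1 : y (2 * Real.pi) = ρ • e := h
  simp only [e0, e1, ff_ap, F1_ap, ← T_ap] at this
  simp at this
  rw [T4, show μ - 2 * a + ε = μ + ε - 2 * a by ring, ← this]
  ext k
  fin_cases k <;> simp <;> ring

lemma path {a μ : ℂ} {ρ σ : ℂ → ℂ} (hρ : AnalyticAt ℂ ρ 0) (hσ : AnalyticAt ℂ σ 0)
    (h1 : ∀ ε, ρ ε * σ ε = 1) (h2 : ∀ ε, ρ ε + σ ε = Δ (ff a (μ + ε))) (h3 : ρ 0 ≠ σ 0)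
    (h4 : deriv (fun m => Δ (ff a m)) μ = 0) (h5 : Δ (ff a (μ + 3 / 4)) ≠ Δ (ff a (μ - 3 / 4))) :
    FirstKind (fun l => LinearMap.toMatrix' (T4 a μ l).toLinearMap) 0 ρ := by
  have fa : ∀ ε, AnalyticAt ℂ (fun ε => ff a (μ + ε)) ε := fun ε =>
    (F_an a _).comp (f := fun ε => μ + ε) (by fun_prop)
  have Da : ∀ ε, AnalyticAt ℂ (fun ε => Δ (ff a (μ + ε))) ε := fun ε => (Δ_an _).comp (fa ε)
  obtain ⟨e0, he0⟩ : ∃ e0, Th (ff a (μ + 0)) e0 - σ 0 • e0 ≠ 0 := by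
    by_contra! hc
    have a1 := congrArg Prod.fst (hc (1, 0))
    have a2 := congrArg Prod.snd (hc (0, 1))
    have := h2 0
    unfold Δ at this
    simp only [Prod.fst_sub, Prod.snd_sub, Prod.smul_fst, Prod.smul_snd, smul_eq_mul, mul_one,
      Prod.fst_zero, Prod.snd_zero] at a1 a2
    exact h3 (by linear_combination this + a1 + a2)
  set e : ℂ → ℂ × ℂ := fun ε => Th (ff a (μ + ε)) e0 - σ ε • e0 with he
  have ea : AnalyticAt ℂ e 0 := ((ap_an e0 _).comp (fa 0)).sub (hσ.smul analyticAt_const)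
  have ee : ∀ ε, Th (ff a (μ + ε)) (e ε) = ρ ε • e ε := fun ε => by
    have d := det (ff a (μ + ε))
    have t := h2 ε
    have u := h1 ε
    unfold Δ at t
    simp only [he]
    rw [lin, lin _ e0]
    ext <;> simp
    · linear_combination (σ ε * e0.1 - e0.1 * (Th (ff a (μ + ε)) (1, 0)).1 -
        e0.2 * (Th (ff a (μ + ε)) (0, 1)).1) * t - e0.1 * d + e0.1 * u -
        e0.1 * σ ε * t
    · linear_combination (σ ε * e0.2 - e0.1 * (Th (ff a (μ + ε)) (1, 0)).2 -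
        e0.2 * (Th (ff a (μ + ε)) (0, 1)).2) * t - e0.2 * d + e0.2 * u -
        e0.2 * σ ε * t
  set c := μ - 2 * a with hc
  set v : ℂ → Fin 4 → ℂ := fun ε => ![(e ε).1, (e ε).2, (c + ε) * (e ε).1, (c + ε) * (e ε).2] with hv
  have vv : ∀ ε, T4 a μ (ε ^ 2) (v ε) = ρ ε • v ε := fun ε => lift a μ ε _ _ (ee ε)
  have ed := ea.differentiableAt.hasDerivAt
  generalize deriv e 0 = e' at ed
  have ed1 : HasDerivAt (fun ε => (e ε).1) e'.1 0 := (fst ℂ ℂ ℂ).hasFDerivAt.comp_hasDerivAt 0 ed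
  have ed2 : HasDerivAt (fun ε => (e ε).2) e'.2 0 := (snd ℂ ℂ ℂ).hasFDerivAt.comp_hasDerivAt 0 ed
  set v' : Fin 4 → ℂ := ![e'.1, e'.2, (e 0).1 + c * e'.1, (e 0).2 + c * e'.2] with hv'
  have vd : HasDerivAt v v' 0 := hasDerivAt_pi.2 fun k => by
    fin_cases k
    · exact ed1
    · exact ed2
    · exact (((hasDerivAt_id' 0).const_add c).fun_mul ed1).congr_deriv (by simp [hv'])
    · exact (((hasDerivAt_id' 0).const_add c).fun_mul ed2).congr_deriv (by simp [hv'])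
  have odd : ∀ {X : Type} [NormedAddCommGroup X] [NormedSpace ℂ X] {g : ℂ → X} {g' : X},
      HasDerivAt g g' 0 → Tendsto (fun ε => ε⁻¹ • (g ε - g (-ε))) (𝓝[≠] 0) (𝓝 (g' + g')) :=
    fun {X} _ _ g g' hg => by
      have := (hg.fun_sub (HasDerivAt.scomp (0 : ℂ) (g₁ := g) (by rwa [neg_zero])
        (hasDerivAt_neg 0))).tendsto_slope_zero
      simpa using this
  have ρd : HasDerivAt ρ 0 0 := by
    have a1 := hρ.differentiableAt.hasDerivAt
    have a2 := hσ.differentiableAt.hasDerivAt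
    have a3 := (a1.fun_mul a2).unique (by simp only [h1]; exact hasDerivAt_const _ _)
    have a4 := (a1.fun_add a2).deriv
    simp only [h2] at a4
    rw [deriv_comp_const_add (fun m => Δ (ff a m)), add_zero, h4] at a4
    have : deriv ρ 0 * (σ 0 - ρ 0) = 0 := by linear_combination a3 + ρ 0 * a4
    rwa [(mul_eq_zero.1 this).resolve_right (sub_ne_zero.2 h3.symm)] at a1
  have vc : Tendsto v (𝓝[≠] 0) (𝓝 (v 0)) := vd.continuousAt.tendsto.mono_left nhdsWithin_le_nhds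
  have ne : ∀ᶠ ε in 𝓝[≠] 0, Δ (ff a (μ + ε)) - Δ (ff a (μ + -ε)) ≠ 0 := by
    have an : AnalyticOnNhd ℂ (fun ε => Δ (ff a (μ + ε)) - Δ (ff a (μ + -ε))) univ := fun ε _ =>
      (Da ε).sub ((Da (-ε)).comp (f := fun ε => -ε) (by fun_prop))
    refine (an 0 trivial).eventually_eq_zero_or_eventually_ne_zero.resolve_left fun h => h5 ?_
    have := an.eqOn_zero_of_preconnected_of_eventuallyEq_zero isPreconnected_univ trivial h
      (mem_univ (3 / 4))
    rwa [Pi.zero_apply, sub_eq_zero, ← sub_eq_add_neg] at this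
  have v0 : v 0 ≠ 0 := fun h => he0 (Prod.ext (congrFun h 0) (congrFun h 1))
  refine ⟨hρ, v, v, fun ε => ε⁻¹ • (v ε - v (-ε)), v 0, v' + v', ?_, vc, odd vd,
    LinearIndependent.pair_iff.2 fun s t h => ?_, ?_, ?_⟩
  · filter_upwards [ne, vc.eventually_ne v0, self_mem_nhdsWithin] with ε a1 a2 a3
    refine ⟨fun h => a1 ?_, a2, by simpa using vv ε, le_antisymm ?_ ?_⟩
    · have : σ ε = σ (-ε) := by
        linear_combination σ (-ε) * h1 ε - σ ε * h1 (-ε) - σ ε * σ (-ε) * h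
      rw [← h2, ← h2, h, this, sub_self]
    · rw [Submodule.span_le, insert_subset_iff, singleton_subset_iff]
      exact ⟨Submodule.subset_span (by simp), Submodule.smul_mem _ _ (Submodule.sub_mem _
        (Submodule.subset_span (by simp)) (Submodule.subset_span (by simp)))⟩
    · rw [Submodule.span_le, insert_subset_iff, singleton_subset_iff]
      refine ⟨Submodule.subset_span (by simp), ?_⟩
      have := (Submodule.span ℂ {v ε, ε⁻¹ • (v ε - v (-ε))}).sub_mem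
        (Submodule.subset_span (mem_insert _ _)) (Submodule.smul_mem _ ε
          (Submodule.subset_span (mem_insert_of_mem _ rfl)))
      rwa [smul_inv_smul₀ a3, sub_sub_cancel] at this
  · have a0 := congrFun h 0
    have a1 := congrFun h 1
    have a2 := congrFun h 2
    have a3 := congrFun h 3
    simp [hv, hv', -mul_eq_zero] at a0 a1 a2 a3
    have t0 : t = 0 := by
      by_contra ht
      have b1 : 2 * t * (e 0).1 = 2 * t * 0 := by linear_combination a2 - c * a0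
      have b2 : 2 * t * (e 0).2 = 2 * t * 0 := by linear_combination a3 - c * a1
      exact he0 (Prod.ext (mul_left_cancel₀ (mul_ne_zero two_ne_zero ht) b1)
        (mul_left_cancel₀ (mul_ne_zero two_ne_zero ht) b2))
    rw [t0, zero_smul, add_zero] at h
    exact ⟨(smul_eq_zero.1 h).resolve_right v0, t0⟩
  · simpa using vv 0
  · have t1 : Tendsto (fun ε : ℂ => T4 a μ (ε ^ 2)) (𝓝[≠] 0) (𝓝 (T4 a μ 0)) := by
      simpa [Function.comp_def] using (((T4c a μ).comp (continuous_pow 2)).tendsto 0).mono_left nhdsWithin_le_nhds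
    have t2 := (isBoundedBilinearMap_apply.continuous.tendsto _).comp (t1.prodMk_nhds (odd vd))
    have t3 : Tendsto (fun ε => v (-ε)) (𝓝[≠] 0) (𝓝 (v 0)) :=
      (vd.continuousAt.tendsto.comp (by simpa using continuous_neg.tendsto (0 : ℂ))).mono_left
        nhdsWithin_le_nhds
    have t4 := ((hρ.continuousAt.tendsto.mono_left nhdsWithin_le_nhds).smul (odd vd)).add
      ((odd ρd).smul t3)
    have := tendsto_nhds_unique t2 (t4.congr fun ε => by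
      have := vv (-ε)
      rw [neg_sq] at this
      simp only [Function.comp, map_smul, map_sub, vv, this, smul_eq_mul]
      module)
    simpa using this

theorem result : ∃ (b : ℝ) (p : Fin 3 → ℝ → ℂ) (N : ℂ → Matrix (Fin 4) (Fin 4) ℂ), 0 < b ∧
    (∀ k, Continuous (p k) ∧ Function.Periodic (p k) b) ∧ IsFloquet b p N ∧
    ∃ r s : ℂ → ℂ, FirstKind N 0 r ∧ FirstKind N 0 s ∧ r 0 ≠ s 0 := by
  obtain ⟨a, μ, h1, h2, h3, h4⟩ := crit
  set D : ℂ → ℂ := fun ε => Δ (ff a (μ + ε)) with hD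
  have Da : AnalyticAt ℂ D 0 := (Δ_an _).comp ((F_an a _).comp (f := fun ε : ℂ => (μ : ℂ) + ε)
    (analyticAt_const.add analyticAt_id))
  obtain ⟨z, hz⟩ := IsAlgClosed.exists_pow_nat_eq (D 0 ^ 2 - 4) two_pos
  have n0 : D 0 ^ 2 - 4 ≠ 0 := fun h => by
    have : (D 0 - 2) * (D 0 + 2) = 0 := by linear_combination h
    simp only [hD, add_zero] at this
    exact (mul_eq_zero.1 this).elim (fun h => h2 (sub_eq_zero.1 h)) fun h => h3 (eq_neg_of_add_eq_zero_left h)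
  have z0 : z ≠ 0 := fun h => n0 (by rw [← hz, h]; simp)
  set S : ℂ → ℂ := fun ε => z * ((D ε ^ 2 - 4) / (D 0 ^ 2 - 4)) ^ ((2 : ℕ)⁻¹ : ℂ) with hS
  have S2 : ∀ ε, S ε ^ 2 = D ε ^ 2 - 4 := fun ε => by
    simp only [hS]
    rw [mul_pow, cpow_nat_inv_pow _ two_ne_zero, hz, mul_div_cancel₀ _ n0]
  have Sa : AnalyticAt ℂ S 0 := analyticAt_const.mul (AnalyticAt.cpow
    (((Da.pow 2).sub analyticAt_const).div_const) analyticAt_const (by simp [div_self n0]))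
  have S0 : (D 0 + S 0) / 2 ≠ (D 0 - S 0) / 2 := fun h => n0 (by
    have : S 0 = 0 := by linear_combination h
    rw [← S2, this]; simp)
  have ra : AnalyticAt ℂ (fun ε => (D ε + S ε) / 2) 0 := (Da.add Sa).div_const
  have sa : AnalyticAt ℂ (fun ε => (D ε - S ε) / 2) 0 := (Da.sub Sa).div_const
  refine ⟨2 * Real.pi, fun k => P a μ k, fun l => LinearMap.toMatrix' (T4 a μ l).toLinearMap,
    by positivity, fun k => ⟨(P a μ k).continuous, fun x => ?_⟩, fun l j =>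
    ⟨sol (2 * Real.pi) (A4 a μ l) (Pi.single j 1), (jet_iff _ _ _ _).2 (sol_Sol _ _), sol0 b0 _ _,
      fun k => by simp [T4, T_ap]⟩, _, _,
    path ra sa (fun ε => by linear_combination (-1 / 4) * S2 ε) (fun ε => by simp only [hD]; ring)
      S0 h1 h4,
    path sa ra (fun ε => by linear_combination (-1 / 4) * S2 ε) (fun ε => by simp only [hD]; ring)
      S0.symm h1 h4, S0⟩
  fin_cases k <;> simp [P, ff_ap, F1_ap, F2_ap, sin_add_two_pi, cos_add_two_pi]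

end Pool.Agent.Results.MP_1bac39_an.Pathology
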